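import Pool.Agent.Helper8.LIFT.PseudoXor

/-!
# Random systems of parity equations: expansion and small maximum
-/

set_option autoImplicit false

open scoped BigOperators

namespace SDX
namespace h8

open h71

/-! ### signs -/

section signs
variable {ι κ : Type} [Fintype ι] [DecidableEq ι] [Fintype κ] [DecidableEq κ]

theorem sum_exp_sg (lam : ℝ) (y : κ → ℝ) (hy : ∀ j, y j = 1 ∨ y j = -1) :
    ∑ b : κ → Bool, Real.exp (lam * ∑ j, sg (b j) * y j) = (2 * Real.cosh lam) ^ Fintype.card κ := by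
  have h1 : ∀ b : κ → Bool, Real.exp (lam * ∑ j, sg (b j) * y j)
      = ∏ j, Real.exp (lam * (sg (b j) * y j)) := by
    intro b
    rw [← Real.exp_sum, Finset.mul_sum]
  simp only [h1]
  have h2 := Finset.prod_univ_sum (fun _ : κ => (Finset.univ : Finset Bool))
    (fun j a => Real.exp (lam * (sg a * y j)))
  rw [Fintype.piFinset_univ] at h2
  rw [← h2]
  have h3 : ∀ j, ∑ a : Bool, Real.exp (lam * (sg a * y j)) = 2 * Real.cosh lam := by
    intro j
    rw [Real.cosh_eq]
    rcases hy j with h | h <;> rw [h] <;> simp [sg] <;> ring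
  simp only [h3, Finset.prod_const, Finset.card_univ]

open Classical in
/-- some right hand sides make the system far from satisfiable -/
theorem signs_exist (A : κ → Finset ι) (ε : ℝ) (hε : 0 < ε)
    (h : Fintype.card ι * Real.log 2 < 2 * ε ^ 2 * Fintype.card κ) :
    ∃ b : κ → Bool, ∀ x : ι → Bool,
      (((Finset.univ : Finset κ).filter fun j => chr (A j) x = sg (b j)).card : ℝ)
        ≤ (1 / 2 + ε) * Fintype.card κ := by
  by_contra hcon
  push Not at hcon
  set m := Fintype.card ι with hm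
  set M := Fintype.card κ with hM
  -- agreement counts
  have h1 : ∀ (b : κ → Bool) (x : ι → Bool), ∑ j, sg (b j) * chr (A j) x
      = 2 * (((Finset.univ : Finset κ).filter fun j => chr (A j) x = sg (b j)).card : ℝ) - M := by
    intro b x
    have h2 : ∀ j, sg (b j) * chr (A j) x = 2 * (if chr (A j) x = sg (b j) then (1 : ℝ) else 0) - 1 := by
      intro j
      have h3 := sg_mul_self (b j)
      split_ifs with h4
      · rw [h4, h3]; norm_num
      · have h5 : chr (A j) x = -sg (b j) := by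
          have h4' := chr_mul_self (A j) x
          have h6 : (chr (A j) x - sg (b j)) * (chr (A j) x + sg (b j)) = 0 := by
            linear_combination h4' - h3
          rcases mul_eq_zero.1 h6 with h7 | h7
          · exact absurd (sub_eq_zero.1 h7) h4
          · linarith
        rw [h5]
        linarith
    simp only [h2]
    rw [Finset.sum_sub_distrib, ← Finset.mul_sum, Finset.sum_boole]
    simp [hM]
  have h2 : ∀ b : κ → Bool, Real.exp (2 * ε * (2 * ε * M))
      ≤ ∑ x : ι → Bool, Real.exp (2 * ε * ∑ j, sg (b j) * chr (A j) x) := by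
    intro b
    obtain ⟨x, hx⟩ := hcon b
    refine le_trans ?_ (Finset.single_le_sum (f := fun x : ι → Bool =>
      Real.exp (2 * ε * ∑ j, sg (b j) * chr (A j) x)) (fun _ _ => (Real.exp_pos _).le)
      (Finset.mem_univ x))
    refine Real.exp_le_exp.2 ?_
    rw [h1]
    have : 0 < 2 * ε := by positivity
    refine mul_le_mul_of_nonneg_left ?_ this.le
    linarith
  have h3 : ∑ b : κ → Bool, ∑ x : ι → Bool, Real.exp (2 * ε * ∑ j, sg (b j) * chr (A j) x)
      = 2 ^ m * (2 * Real.cosh (2 * ε)) ^ M := by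
    rw [Finset.sum_comm]
    have h4 : ∀ x : ι → Bool, ∑ b : κ → Bool, Real.exp (2 * ε * ∑ j, sg (b j) * chr (A j) x)
        = (2 * Real.cosh (2 * ε)) ^ M := fun x => sum_exp_sg _ _ fun j => by
      have h5 := abs_chr (A j) x
      rcases abs_cases (chr (A j) x) with h6 | h6
      · left; linarith [h6.1]
      · right; linarith [h6.1]
    simp only [h4, Finset.sum_const, Finset.card_univ, Fintype.card_fun, Fintype.card_bool, nsmul_eq_mul]
    push_cast
    rw [hm]
  have h4 : (2 : ℝ) ^ M * Real.exp (2 * ε * (2 * ε * M)) ≤ 2 ^ m * (2 * Real.cosh (2 * ε)) ^ M := by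
    rw [← h3]
    calc (2 : ℝ) ^ M * Real.exp (2 * ε * (2 * ε * M))
        = ∑ _b : κ → Bool, Real.exp (2 * ε * (2 * ε * M)) := by
          simp only [Finset.sum_const, Finset.card_univ, Fintype.card_fun, Fintype.card_bool, nsmul_eq_mul]
          push_cast
          rw [hM]
      _ ≤ _ := Finset.sum_le_sum fun b _ => h2 b
  have h5 : (2 * Real.cosh (2 * ε)) ^ M ≤ 2 ^ M * Real.exp (2 * ε ^ 2 * M) := by
    rw [mul_pow]
    refine mul_le_mul_of_nonneg_left ?_ (by positivity)
    calc Real.cosh (2 * ε) ^ M ≤ Real.exp ((2 * ε) ^ 2 / 2) ^ M :=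
          pow_le_pow_left₀ (Real.cosh_pos _).le (Real.cosh_le_exp_half_sq _) M
      _ = Real.exp (2 * ε ^ 2 * M) := by
          rw [← Real.exp_nat_mul]
          congr 1
          ring
  have h6 : Real.exp (2 * ε * (2 * ε * M)) ≤ 2 ^ m * Real.exp (2 * ε ^ 2 * M) := by
    have h7 : (2 : ℝ) ^ M * Real.exp (2 * ε * (2 * ε * M))
        ≤ 2 ^ M * (2 ^ m * Real.exp (2 * ε ^ 2 * M)) := by
      refine h4.trans ?_
      calc (2 : ℝ) ^ m * (2 * Real.cosh (2 * ε)) ^ M ≤ 2 ^ m * (2 ^ M * Real.exp (2 * ε ^ 2 * M)) :=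
            mul_le_mul_of_nonneg_left h5 (by positivity)
        _ = _ := by ring
    exact le_of_mul_le_mul_left h7 (by positivity)
  have h7 : (2 : ℝ) ^ m = Real.exp (m * Real.log 2) := by
    rw [mul_comm, Real.exp_mul, Real.exp_log (by norm_num), Real.rpow_natCast]
  rw [h7, ← Real.exp_add, Real.exp_le_exp] at h6
  nlinarith

end signs

/-! ### expansion -/

/-- the tripartite triples -/
def tri {N M : ℕ} (F : Fin M → Fin 3 → Fin N) (j : Fin M) : Finset (Fin 3 × Fin N) :=
  Finset.univ.map ⟨fun i => (i, F j i), fun _ _ h => (Prod.ext_iff.1 h).1⟩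

theorem tri_card {N M : ℕ} (F : Fin M → Fin 3 → Fin N) (j : Fin M) : (tri F j).card = 3 := by
  simp [tri]

theorem mem_tri {N M : ℕ} {F : Fin M → Fin 3 → Fin N} {j : Fin M} {p : Fin 3 × Fin N} :
    p ∈ tri F j ↔ F j p.1 = p.2 := by
  simp only [tri, Finset.mem_map, Finset.mem_univ, true_and, Function.Embedding.coeFn_mk]
  constructor
  · rintro ⟨i, rfl⟩
    rfl
  · intro h
    exact ⟨p.1, Prod.ext rfl h⟩

/-- few vertices are in the sum if the union is small -/
theorem bsum_ge {ι κ : Type} [Fintype ι] [DecidableEq ι] [DecidableEq κ] (A : κ → Finset ι)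
    (hA : ∀ j, (A j).card = 3) (J : Finset κ) :
    2 * (J.biUnion A).card ≤ (bsum A J).card + 3 * J.card := by
  -- degrees
  set deg : ι → ℕ := fun i => (J.filter fun j => i ∈ A j).card with hdeg
  have h1 : ∑ i ∈ J.biUnion A, deg i = 3 * J.card := by
    have h2 : ∀ i, deg i = ∑ j ∈ J, if i ∈ A j then 1 else 0 := fun i => by
      change (J.filter fun j => i ∈ A j).card = _
      rw [Finset.card_filter]
    simp only [h2]
    rw [Finset.sum_comm]
    have h3 : ∀ j ∈ J, (∑ i ∈ J.biUnion A, if i ∈ A j then 1 else 0) = 3 := by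
      intro j hj
      rw [← Finset.sum_filter, Finset.sum_const, smul_eq_mul, mul_one]
      rw [← hA j]
      congr 1
      ext i
      simp only [Finset.mem_filter, Finset.mem_biUnion]
      exact ⟨fun h => h.2, fun h => ⟨⟨j, hj, h⟩, h⟩⟩
    rw [Finset.sum_congr rfl h3, Finset.sum_const, smul_eq_mul, mul_comm]
  have h2 : ∀ i ∈ J.biUnion A, 2 ≤ (if i ∈ bsum A J then 1 else 0) + deg i := by
    intro i hi
    obtain ⟨j, hj, hij⟩ := Finset.mem_biUnion.1 hi
    have h3 : 1 ≤ deg i := by
      rw [hdeg]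
      exact Finset.card_pos.2 ⟨j, Finset.mem_filter.2 ⟨hj, hij⟩⟩
    split_ifs with h4
    · omega
    · rw [mem_bsum, Nat.not_odd_iff_even] at h4
      change Even (deg i) at h4
      obtain ⟨k, hk⟩ := h4
      omega
  have h3 := Finset.sum_le_sum h2
  rw [Finset.sum_const, smul_eq_mul, Finset.sum_add_distrib, h1, ← Finset.sum_filter,
    Finset.sum_const, smul_eq_mul, mul_one] at h3
  have h4 : ((J.biUnion A).filter fun i => i ∈ bsum A J).card ≤ (bsum A J).card :=
    Finset.card_le_card fun i hi => (Finset.mem_filter.1 hi).2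
  omega

theorem amgm3 (a b c : ℝ) (ha : 0 ≤ a) (hb : 0 ≤ b) (hc : 0 ≤ c) :
    a * b * c ≤ ((a + b + c) / 3) ^ 3 := by
  nlinarith [mul_nonneg ha (sq_nonneg (b - c)), mul_nonneg hb (sq_nonneg (a - c)),
    mul_nonneg hc (sq_nonneg (a - b)), mul_nonneg ha (sq_nonneg (a - b)),
    mul_nonneg ha (sq_nonneg (a - c)), mul_nonneg hb (sq_nonneg (b - a)),
    mul_nonneg hb (sq_nonneg (b - c)), mul_nonneg hc (sq_nonneg (c - a)),
    mul_nonneg hc (sq_nonneg (c - b))]

open Classical in
/-- number of systems with the sets of `J` inside `U` -/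
theorem card_inside {N M : ℕ} (hN : 0 < N) (J : Finset (Fin M)) (U : Finset (Fin 3 × Fin N)) :
    (((Finset.univ : Finset (Fin M → Fin 3 → Fin N)).filter
      fun F => ∀ j ∈ J, tri F j ⊆ U).card : ℝ)
      ≤ ((N : ℝ) ^ 3) ^ M * (((U.card : ℝ) / (3 * N)) ^ 3) ^ J.card := by
  set V : Fin 3 → Finset (Fin N) := fun i => Finset.univ.filter fun n => (i, n) ∈ U with hV
  set G : Finset (Fin 3 → Fin N) := Fintype.piFinset V with hG
  have hN' : (0 : ℝ) < N := by exact_mod_cast hN
  have h1 : ((Finset.univ : Finset (Fin M → Fin 3 → Fin N)).filter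
      fun F => ∀ j ∈ J, tri F j ⊆ U)
      = Fintype.piFinset fun j => if j ∈ J then G else Finset.univ := by
    ext F
    simp only [Finset.mem_filter, Finset.mem_univ, true_and, Fintype.mem_piFinset]
    constructor
    · intro h j
      split_ifs with hj
      · rw [hG, Fintype.mem_piFinset]
        intro i
        rw [hV, Finset.mem_filter]
        exact ⟨Finset.mem_univ _, h j hj (mem_tri.2 rfl)⟩
      · exact Finset.mem_univ _
    · intro h j hj p hp
      have h2 := h j
      rw [if_pos hj, hG, Fintype.mem_piFinset] at h2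
      have h3 := h2 p.1
      rw [hV, Finset.mem_filter] at h3
      have h4 := h3.2
      rw [mem_tri.1 hp] at h4
      exact h4
  have h2 : (G.card : ℝ) ≤ ((U.card : ℝ) / 3) ^ 3 := by
    have h3 : U.card = (V 0).card + (V 1).card + (V 2).card := by
      have h4 : U.card = ∑ i : Fin 3, (V i).card := by
        rw [← Finset.card_sigma]
        refine Finset.card_bij (fun p _ => ⟨p.1, p.2⟩) ?_ ?_ ?_
        · intro p hp
          simp [hV, hp]
        · intro p _ q _ h
          simp only [Sigma.mk.injEq, heq_eq_eq] at h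
          exact Prod.ext h.1 h.2
        · rintro ⟨i, n⟩ h
          simp only [hV, Finset.mem_sigma, Finset.mem_univ, Finset.mem_filter, true_and] at h
          exact ⟨(i, n), h, rfl⟩
      rw [h4, Fin.sum_univ_three]
    rw [hG, Fintype.card_piFinset, Fin.prod_univ_three, h3]
    push_cast
    exact amgm3 _ _ _ (Nat.cast_nonneg _) (Nat.cast_nonneg _) (Nat.cast_nonneg _)
  rw [h1, Fintype.card_piFinset]
  push_cast
  have h3 : ∀ j : Fin M, (((if j ∈ J then G else Finset.univ) : Finset (Fin 3 → Fin N)).card : ℝ)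
      ≤ (N : ℝ) ^ 3 * (if j ∈ J then ((U.card : ℝ) / (3 * N)) ^ 3 else 1) := by
    intro j
    split_ifs with hj
    · refine h2.trans (le_of_eq ?_)
      field_simp
    · simp [Finset.card_univ]
  refine (Finset.prod_le_prod (fun j _ => Nat.cast_nonneg _) fun j _ => h3 j).trans ?_
  rw [Finset.prod_mul_distrib, Finset.prod_const, Finset.card_univ, Fintype.card_fin,
    Finset.prod_ite_mem, Finset.univ_inter, Finset.prod_const]

theorem choose_le_exp (n k : ℕ) (hk : 0 < k) :
    (n.choose k : ℝ) ≤ (n / k) ^ k * Real.exp k := by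
  have hk' : (0 : ℝ) < k := by exact_mod_cast hk
  have h1 : (n.choose k : ℝ) ≤ (n : ℝ) ^ k / k.factorial := Nat.choose_le_pow_div k n
  have h2 : (k : ℝ) ^ k / k.factorial ≤ Real.exp k :=
    Real.pow_div_factorial_le_exp (k : ℝ) hk'.le k
  calc (n.choose k : ℝ) ≤ (n : ℝ) ^ k / k.factorial := h1
    _ = (n / k : ℝ) ^ k * ((k : ℝ) ^ k / k.factorial) := by
        rw [div_pow]
        field_simp
    _ ≤ _ := mul_le_mul_of_nonneg_left h2 (by positivity)

/-- the numerical estimate for the union bound -/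
theorem union_num (D m M k : ℕ) (δ : ℝ) (hD : 0 < D) (hδ : 0 < δ)
    (hδD : 8 * Real.exp 3 * D * δ ≤ 1) (hk : 0 < k) (hM : M ≤ D * m)
    (hkm : (2 * k : ℝ) ≤ δ ^ 4 * m) :
    (M.choose k : ℝ) * (m.choose (7 * k / 4)) * ((((7 * k / 4 : ℕ) : ℝ) / m) ^ 3) ^ k
      ≤ (1 / 4) ^ k := by
  set u := 7 * k / 4 with hu
  have hu0 : 0 < u := by omega
  have hu4 : 4 * u ≤ 7 * k := by omega
  have hk' : (0 : ℝ) < k := by exact_mod_cast hk
  have hu' : (0 : ℝ) < u := by exact_mod_cast hu0
  have hm' : (0 : ℝ) < m := by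
    by_contra hcon
    have : (m : ℝ) = 0 := le_antisymm (not_lt.1 hcon) (Nat.cast_nonneg _)
    rw [this] at hkm
    linarith
  have hδ1 : δ ≤ 1 := by
    have h1 : 1 ≤ Real.exp 3 := Real.one_le_exp (by norm_num)
    have h2 : (1 : ℝ) ≤ D := by exact_mod_cast hD
    nlinarith [mul_pos hδ (Real.exp_pos 3), mul_le_mul h1 h2 (by norm_num) (by positivity)]
  have hu2 : (u : ℝ) ≤ 2 * k := by
    have : u ≤ 2 * k := by omega
    exact_mod_cast this
  have hum : (u : ℝ) / m ≤ δ ^ 4 := by
    rw [div_le_iff₀ hm']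
    linarith
  have hum0 : 0 ≤ (u : ℝ) / m := by positivity
  have h1 := choose_le_exp M k hk
  have h2 := choose_le_exp m u hu0
  have h3 : (M : ℝ) / k ≤ D * (m / k) := by
    rw [← mul_div_assoc]
    exact div_le_div_of_nonneg_right (by exact_mod_cast hM) hk'.le
  calc (M.choose k : ℝ) * (m.choose u) * (((u : ℝ) / m) ^ 3) ^ k
      ≤ ((M / k) ^ k * Real.exp k) * ((m / u) ^ u * Real.exp u) * (((u : ℝ) / m) ^ 3) ^ k := by
        refine mul_le_mul_of_nonneg_right ?_ (by positivity)
        exact mul_le_mul h1 h2 (by positivity) (by positivity)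
    _ ≤ (D * (m / k)) ^ k * (Real.exp k * Real.exp u)
          * (((u : ℝ) / m) ^ k * ((u : ℝ) / m) ^ (2 * k - u)) := by
        have h4 : (m / u : ℝ) ^ u * (((u : ℝ) / m) ^ 3) ^ k
            = ((u : ℝ) / m) ^ k * ((u : ℝ) / m) ^ (2 * k - u) := by
          have h5 : (m / u : ℝ) = ((u : ℝ) / m)⁻¹ := by rw [inv_div]
          have h6 : (u : ℝ) / m ≠ 0 := by positivity
          rw [h5, ← pow_mul, show 3 * k = u + (k + (2 * k - u)) by omega, pow_add, ← mul_assoc,
            ← mul_pow, inv_mul_cancel₀ h6, one_pow, one_mul, pow_add]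
        have h7 : ((M : ℝ) / k) ^ k ≤ (D * (m / k)) ^ k := pow_le_pow_left₀ (by positivity) h3 k
        calc _ = ((M : ℝ) / k) ^ k * (Real.exp k * Real.exp u)
              * ((m / u : ℝ) ^ u * (((u : ℝ) / m) ^ 3) ^ k) := by ring
          _ = ((M : ℝ) / k) ^ k * (Real.exp k * Real.exp u)
              * (((u : ℝ) / m) ^ k * ((u : ℝ) / m) ^ (2 * k - u)) := by rw [h4]
          _ ≤ _ := mul_le_mul_of_nonneg_right (mul_le_mul_of_nonneg_right h7 (by positivity))
              (by positivity)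
    _ ≤ (D * (m / k)) ^ k * (Real.exp 3 ^ k) * ((2 * (k / m)) ^ k * δ ^ k) := by
        refine mul_le_mul (mul_le_mul_of_nonneg_left ?_ (by positivity)) ?_ (by positivity)
          (by positivity)
        · rw [← Real.exp_add, ← Real.exp_nat_mul]
          refine Real.exp_le_exp.2 ?_
          linarith
        · refine mul_le_mul ?_ ?_ (by positivity) (by positivity)
          · refine pow_le_pow_left₀ hum0 ?_ k
            rw [← mul_div_assoc]
            exact div_le_div_of_nonneg_right hu2 hm'.le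
          · calc ((u : ℝ) / m) ^ (2 * k - u) ≤ (δ ^ 4) ^ (2 * k - u) :=
                  pow_le_pow_left₀ hum0 hum _
              _ = δ ^ (4 * (2 * k - u)) := by rw [← pow_mul]
              _ ≤ δ ^ k := pow_le_pow_of_le_one hδ.le hδ1 (by omega)
    _ = (2 * Real.exp 3 * D * δ) ^ k := by
        rw [← mul_pow, ← mul_pow, ← mul_pow]
        congr 1
        field_simp
    _ ≤ (1 / 4) ^ k := by
        refine pow_le_pow_left₀ (by positivity) ?_ k
        linarith

open Classical in
/-- expanding systems exist -/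
theorem expand_exists (D N M : ℕ) (δ : ℝ) (hD : 0 < D) (hN : 0 < N) (hδ : 0 < δ)
    (hδD : 8 * Real.exp 3 * D * δ ≤ 1) (s : ℕ) (hs : (2 * s : ℝ) ≤ δ ^ 4 * (3 * N))
    (hM : M ≤ D * (3 * N)) :
    ∃ F : Fin M → Fin 3 → Fin N, Expand (tri F) s := by
  have hN' : (0 : ℝ) < N := by exact_mod_cast hN
  by_contra hcon
  push Not at hcon
  -- every system is bad for some J, U
  have hbad : ∀ F : Fin M → Fin 3 → Fin N, ∃ J : Finset (Fin M), 0 < J.card ∧ J.card ≤ s ∧
      ∃ U : Finset (Fin 3 × Fin N), U.card = 7 * J.card / 4 ∧ ∀ j ∈ J, tri F j ⊆ U := by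
    intro F
    have h1 := hcon F
    unfold Expand at h1
    push Not at h1
    obtain ⟨J, hJs, hJ⟩ := h1
    have h2 := bsum_ge (tri F) (tri_card F) J
    refine ⟨J, by omega, hJs, ?_⟩
    have h3 : (J.biUnion (tri F)).card ≤ 7 * J.card / 4 := by omega
    have h4 : 7 * J.card / 4 ≤ (Finset.univ : Finset (Fin 3 × Fin N)).card := by
      rw [Finset.card_univ, Fintype.card_prod, Fintype.card_fin, Fintype.card_fin]
      have h5 : (2 * J.card : ℝ) ≤ 3 * N := by
        have h6 : (J.card : ℝ) ≤ s := by exact_mod_cast hJs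
        have hδ1 : δ ^ 4 ≤ 1 := by
          refine pow_le_one₀ hδ.le ?_
          have h1 : 1 ≤ Real.exp 3 := Real.one_le_exp (by norm_num)
          have h2 : (1 : ℝ) ≤ D := by exact_mod_cast hD
          nlinarith [mul_pos hδ (Real.exp_pos 3), mul_le_mul h1 h2 (by norm_num) (by positivity)]
        nlinarith
      have h6 : 2 * J.card ≤ 3 * N := by exact_mod_cast h5
      omega
    obtain ⟨U, hU1, hU2⟩ := Finset.exists_subsuperset_card_eq (Finset.subset_univ _) h3 h4
    exact ⟨U, hU2.2, fun j hj => (Finset.subset_biUnion_of_mem (tri F) hj).trans hU1⟩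
  -- union bound
  have h1 : ((Finset.univ : Finset (Fin M → Fin 3 → Fin N)).card : ℝ)
      ≤ ∑ k ∈ Finset.Icc 1 s, ∑ J ∈ (Finset.univ : Finset (Fin M)).powersetCard k,
        ∑ U ∈ (Finset.univ : Finset (Fin 3 × Fin N)).powersetCard (7 * k / 4),
          (((Finset.univ : Finset (Fin M → Fin 3 → Fin N)).filter
            fun F => ∀ j ∈ J, tri F j ⊆ U).card : ℝ) := by
    have h2 : (Finset.univ : Finset (Fin M → Fin 3 → Fin N))
        ⊆ (Finset.Icc 1 s).biUnion fun k => ((Finset.univ : Finset (Fin M)).powersetCard k).biUnion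
          fun J => ((Finset.univ : Finset (Fin 3 × Fin N)).powersetCard (7 * k / 4)).biUnion
            fun U => (Finset.univ : Finset (Fin M → Fin 3 → Fin N)).filter
              fun F => ∀ j ∈ J, tri F j ⊆ U := by
      intro F _
      obtain ⟨J, hJ0, hJs, U, hU, hF⟩ := hbad F
      simp only [Finset.mem_biUnion, Finset.mem_Icc, Finset.mem_powersetCard, Finset.mem_filter,
        Finset.mem_univ, true_and]
      exact ⟨J.card, ⟨hJ0, hJs⟩, J, ⟨Finset.subset_univ _, rfl⟩, U, ⟨Finset.subset_univ _, hU⟩, hF⟩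
    have h3 := (Finset.card_le_card h2).trans Finset.card_biUnion_le
    have h4 : (Finset.univ : Finset (Fin M → Fin 3 → Fin N)).card
        ≤ ∑ k ∈ Finset.Icc 1 s, ∑ J ∈ (Finset.univ : Finset (Fin M)).powersetCard k,
        ∑ U ∈ (Finset.univ : Finset (Fin 3 × Fin N)).powersetCard (7 * k / 4),
          ((Finset.univ : Finset (Fin M → Fin 3 → Fin N)).filter
            fun F => ∀ j ∈ J, tri F j ⊆ U).card :=
      h3.trans (Finset.sum_le_sum fun k _ => Finset.card_biUnion_le.trans
        (Finset.sum_le_sum fun J _ => Finset.card_biUnion_le))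
    exact_mod_cast h4
  have h2 : ((Finset.univ : Finset (Fin M → Fin 3 → Fin N)).card : ℝ) = ((N : ℝ) ^ 3) ^ M := by
    simp [Finset.card_univ]
  have h3 : ∀ k ∈ Finset.Icc 1 s, ∑ J ∈ (Finset.univ : Finset (Fin M)).powersetCard k,
        ∑ U ∈ (Finset.univ : Finset (Fin 3 × Fin N)).powersetCard (7 * k / 4),
          (((Finset.univ : Finset (Fin M → Fin 3 → Fin N)).filter
            fun F => ∀ j ∈ J, tri F j ⊆ U).card : ℝ) ≤ ((N : ℝ) ^ 3) ^ M * (1 / 4) ^ k := by
    intro k hk
    rw [Finset.mem_Icc] at hk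
    have h4 : ∀ J ∈ (Finset.univ : Finset (Fin M)).powersetCard k,
        ∑ U ∈ (Finset.univ : Finset (Fin 3 × Fin N)).powersetCard (7 * k / 4),
          (((Finset.univ : Finset (Fin M → Fin 3 → Fin N)).filter
            fun F => ∀ j ∈ J, tri F j ⊆ U).card : ℝ)
          ≤ ((3 * N).choose (7 * k / 4) : ℝ) *
            (((N : ℝ) ^ 3) ^ M * ((((7 * k / 4 : ℕ) : ℝ) / (3 * N)) ^ 3) ^ k) := by
      intro J hJ
      have h5 : ∀ U ∈ (Finset.univ : Finset (Fin 3 × Fin N)).powersetCard (7 * k / 4),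
          (((Finset.univ : Finset (Fin M → Fin 3 → Fin N)).filter
            fun F => ∀ j ∈ J, tri F j ⊆ U).card : ℝ)
            ≤ ((N : ℝ) ^ 3) ^ M * ((((7 * k / 4 : ℕ) : ℝ) / (3 * N)) ^ 3) ^ k := by
        intro U hU
        have h6 := card_inside hN J U
        rw [(Finset.mem_powersetCard.1 hU).2, (Finset.mem_powersetCard.1 hJ).2] at h6
        exact h6
      refine (Finset.sum_le_sum h5).trans (le_of_eq ?_)
      rw [Finset.sum_const, Finset.card_powersetCard, Finset.card_univ, Fintype.card_prod,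
        Fintype.card_fin, Fintype.card_fin, nsmul_eq_mul]
    refine (Finset.sum_le_sum h4).trans ?_
    rw [Finset.sum_const, Finset.card_powersetCard, Finset.card_univ, Fintype.card_fin, nsmul_eq_mul]
    have h6 := union_num D (3 * N) M k δ hD hδ hδD hk.1 hM (by
      have : (k : ℝ) ≤ s := by exact_mod_cast hk.2
      push_cast
      linarith)
    push_cast at h6 ⊢
    calc (M.choose k : ℝ) * (((3 * N).choose (7 * k / 4) : ℝ) *
            (((N : ℝ) ^ 3) ^ M * ((((7 * k / 4 : ℕ) : ℝ) / (3 * N)) ^ 3) ^ k))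
        = ((N : ℝ) ^ 3) ^ M * ((M.choose k : ℝ) * ((3 * N).choose (7 * k / 4) : ℝ) *
            ((((7 * k / 4 : ℕ) : ℝ) / (3 * N)) ^ 3) ^ k) := by ring
      _ ≤ _ := by
        refine mul_le_mul_of_nonneg_left ?_ (by positivity)
        push_cast
        exact h6
  have h4 := h1.trans (Finset.sum_le_sum h3)
  rw [h2, ← Finset.mul_sum] at h4
  have h5 : ∑ k ∈ Finset.Icc 1 s, (1 / 4 : ℝ) ^ k < 1 := by
    have h6 : ∀ s : ℕ, ∑ k ∈ Finset.Icc 1 s, (1 / 4 : ℝ) ^ k ≤ 1 / 3 - 1 / 3 * (1 / 4) ^ s := by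
      intro s
      induction s with
      | zero => simp
      | succ s ih =>
        rw [Finset.sum_Icc_succ_top (by omega), pow_succ]
        linarith
    have h7 := h6 s
    have h8 : (0 : ℝ) < (1 / 4) ^ s := by positivity
    linarith
  have h6 : (0 : ℝ) < ((N : ℝ) ^ 3) ^ M := by positivity
  nlinarith

/-- transport along an equivalence -/
theorem bsum_map {ι ι' κ : Type} [Fintype ι] [DecidableEq ι] [Fintype ι'] [DecidableEq ι']
    [DecidableEq κ] (e : ι ≃ ι') (A : κ → Finset ι) (J : Finset κ) :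
    bsum (fun j => (A j).map e.toEmbedding) J = (bsum A J).map e.toEmbedding := by
  ext i
  rw [mem_bsum, Finset.mem_map_equiv, mem_bsum]
  simp only [Finset.mem_map_equiv]

theorem chr_map {ι ι' : Type} (e : ι ≃ ι') (α : Finset ι) (x : ι' → Bool) :
    chr (α.map e.toEmbedding) x = chr α (x ∘ e) := by
  simp [chr, Finset.prod_map]

end h8

open h71 h8

open Classical in
/-- **Random 3-XOR instances.** -/
theorem xor_instance (ε : ℝ) (hε : 0 < ε) : ∃ D : ℕ, 0 < D ∧ ∃ c : ℝ, 0 < c ∧ c ≤ 1 ∧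
    ∀ N : ℕ, 0 < N → ∃ (A : Fin (D * (3 * N)) → Finset (Fin (3 * N)))
      (b : Fin (D * (3 * N)) → Bool), (∀ j, (A j).card = 3) ∧
      (∀ s : ℕ, (s : ℝ) ≤ c * (3 * N : ℕ) → Expand A s) ∧
      ∀ x : Fin (3 * N) → Bool,
        (((Finset.univ : Finset (Fin (D * (3 * N)))).filter
          fun j => chr (A j) x = sg (b j)).card : ℝ) ≤ (1 / 2 + ε) * (D * (3 * N) : ℕ) := by
  obtain ⟨D, hD⟩ := exists_nat_gt (Real.log 2 / (2 * ε ^ 2))
  have hD0 : 0 < D := by
    rcases Nat.eq_zero_or_pos D with h | h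
    · exfalso
      rw [h] at hD
      have : 0 < Real.log 2 / (2 * ε ^ 2) := div_pos (Real.log_pos (by norm_num)) (by positivity)
      push_cast at hD
      linarith
    · exact h
  have hD1 : (0 : ℝ) < D := by exact_mod_cast hD0
  set δ : ℝ := 1 / (8 * Real.exp 3 * D) with hδ
  have hδ0 : 0 < δ := by positivity
  have hδD : 8 * Real.exp 3 * D * δ ≤ 1 := by
    rw [hδ, mul_one_div_cancel (by positivity)]
  have hδ1 : δ ≤ 1 := by
    rw [hδ, div_le_one (by positivity)]
    have h1 : 1 ≤ Real.exp 3 := Real.one_le_exp (by norm_num)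
    have h2 : (1 : ℝ) ≤ D := by exact_mod_cast hD0
    nlinarith [mul_le_mul h1 h2 (by norm_num) (by positivity)]
  have hδ4 : δ ^ 4 ≤ 1 := pow_le_one₀ hδ0.le hδ1
  refine ⟨D, hD0, δ ^ 4 / 2, by positivity, by linarith, fun N hN => ?_⟩
  obtain ⟨F, hF⟩ := expand_exists D N (D * (3 * N)) δ hD0 hN hδ0 hδD
    ⌊δ ^ 4 / 2 * (3 * N : ℕ)⌋₊ (by
    have := Nat.floor_le (a := δ ^ 4 / 2 * ((3 * N : ℕ) : ℝ)) (by positivity)
    push_cast at this ⊢
    linarith) le_rfl
  let e : Fin 3 × Fin N ≃ Fin (3 * N) := finProdFinEquiv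
  set A : Fin (D * (3 * N)) → Finset (Fin (3 * N)) := fun j => (tri F j).map e.toEmbedding with hA
  have hN' : (0 : ℝ) < N := by exact_mod_cast hN
  obtain ⟨b, hb⟩ := signs_exist A ε hε (by
    rw [Fintype.card_fin, Fintype.card_fin]
    rw [div_lt_iff₀ (by positivity)] at hD
    push_cast
    have := mul_lt_mul_of_pos_left hD (show (0 : ℝ) < 3 * N by positivity)
    nlinarith)
  refine ⟨A, b, fun j => by rw [hA, Finset.card_map, tri_card], fun s hs J hJ => ?_, fun x => ?_⟩
  · have h1 := hF J (hJ.trans (Nat.le_floor hs))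
    rw [hA, bsum_map, Finset.card_map]
    exact h1
  · have h1 := hb x
    rwa [Fintype.card_fin] at h1

end SDX
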