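import Pool.Agent.Helper71.SDX.Cube

/-!
# The pseudo-density of an expanding system of parity equations (Grigoriev, Schoenebeck)

`bsum A J` is the sum mod 2 of the sets `A j`, `j ∈ J`. If `A` is expanding then
`xpd r A b = ∑_{|J| ≤ r} b_J χ_{bsum A J}` is a pseudo-density of high degree for which all the
equations `χ_{A j} = b j` hold.
-/

set_option autoImplicit false

open scoped BigOperators

namespace SDX

/-- the sum mod 2 of the sets `A j`, `j ∈ J` -/
def bsum {ι κ : Type} [Fintype ι] [DecidableEq ι] (A : κ → Finset ι) (J : Finset κ) : Finset ι :=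
  Finset.univ.filter fun i => Odd (J.filter fun j => i ∈ A j).card

/-- the pseudo-density -/
noncomputable def xpd {ι κ : Type} [Fintype ι] [DecidableEq ι] [Fintype κ] [DecidableEq κ] (r : ℕ)
    (A : κ → Finset ι) (b : κ → Bool) (x : ι → Bool) : ℝ :=
  ∑ J ∈ Finset.univ.filter (fun J : Finset κ => J.card ≤ r), chr J b * chr (bsum A J) x

namespace h8

open h71

section bsum
variable {ι κ : Type} [Fintype ι] [DecidableEq ι] [DecidableEq κ]

theorem card_symmDiff_parity (P Q : Finset κ) :
    Odd (symmDiff P Q).card ↔ (Odd P.card ↔ ¬ Odd Q.card) := by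
  have h : (symmDiff P Q).card + 2 * (P ∩ Q).card = P.card + Q.card := by
    have h1 : (symmDiff P Q).card = (P \ Q).card + (Q \ P).card := by
      rw [← Finset.card_union_of_disjoint]
      · rfl
      · exact Finset.disjoint_left.2 fun i hi hj => by
          simp only [Finset.mem_sdiff] at hi hj
          exact hj.2 hi.1
    have h2 := Finset.card_sdiff_add_card_inter P Q
    have h3 := Finset.card_sdiff_add_card_inter Q P
    rw [Finset.inter_comm Q P] at h3
    omega
  simp only [Nat.odd_iff]
  omega

theorem mem_bsum {A : κ → Finset ι} {J : Finset κ} {i : ι} :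
    i ∈ bsum A J ↔ Odd (J.filter fun j => i ∈ A j).card := by
  simp [bsum]

theorem filter_symmDiff (J J' : Finset κ) (p : κ → Prop) [DecidablePred p] :
    (symmDiff J J').filter p = symmDiff (J.filter p) (J'.filter p) := by
  ext j
  simp only [Finset.mem_filter, Finset.mem_symmDiff]
  tauto

theorem bsum_symmDiff (A : κ → Finset ι) (J J' : Finset κ) :
    bsum A (symmDiff J J') = symmDiff (bsum A J) (bsum A J') := by
  ext i
  rw [mem_bsum, filter_symmDiff, card_symmDiff_parity, Finset.mem_symmDiff, mem_bsum, mem_bsum]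
  tauto

theorem bsum_empty (A : κ → Finset ι) : bsum A ∅ = ∅ := by
  ext i
  simp [mem_bsum]

theorem bsum_singleton (A : κ → Finset ι) (j : κ) : bsum A {j} = A j := by
  ext i
  rw [mem_bsum, Finset.filter_singleton]
  split_ifs with h
  · simp [h]
  · simp [h]

end bsum

/-- a signed equivalence relation is positive semidefinite -/
theorem psd_of_rel {T : Type} [Fintype T] (K : T → T → ℝ) (h1 : ∀ u, K u u = 1)
    (hs : ∀ u v, K u v = K v u) (hv : ∀ u v, K u v ≠ 0 → K u v * K u v = 1)
    (ht : ∀ u v w, K u v ≠ 0 → K v w ≠ 0 → K u w = K u v * K v w) (g : T → ℝ) :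
    0 ≤ ∑ u, ∑ v, g u * g v * K u v := by
  classical
  set n : T → ℝ := fun w => ((Finset.univ.filter fun u => K u w ≠ 0).card : ℝ) with hn
  have hnpos : ∀ w, 0 < n w := by
    intro w
    simp only [hn]
    rw [Nat.cast_pos, Finset.card_pos]
    exact ⟨w, by simp [h1]⟩
  have hneq : ∀ u w, K u w ≠ 0 → n w = n u := by
    intro u w huw
    simp only [hn]
    congr 2
    ext v
    simp only [Finset.mem_filter, Finset.mem_univ, true_and]
    have hwu : K w u ≠ 0 := by rwa [hs]
    constructor
    · intro hvw
      rw [ht v w u hvw hwu]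
      exact mul_ne_zero hvw hwu
    · intro hvu
      rw [ht v u w hvu huw]
      exact mul_ne_zero hvu huw
  have key : ∀ u v, ∑ w, K u w * K v w / n w = K u v := by
    intro u v
    by_cases huv : K u v = 0
    · rw [huv]
      refine Finset.sum_eq_zero fun w _ => ?_
      by_cases h2 : K u w = 0
      · simp [h2]
      · by_cases h3 : K v w = 0
        · simp [h3]
        · exfalso
          have h4 : K w v ≠ 0 := by rwa [hs]
          have h5 := ht u w v h2 h4
          rw [huv] at h5
          exact (mul_ne_zero h2 h4) h5.symm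
    · have hvu : K v u ≠ 0 := by rwa [hs]
      have h2 : ∀ w, K u w * K v w / n w = if K w u ≠ 0 then K u v / n u else 0 := by
        intro w
        split_ifs with h3
        · have h4 : K u w ≠ 0 := by rwa [hs]
          rw [hneq u w h4, ht v u w hvu h4]
          congr 1
          calc K u w * (K v u * K u w) = K v u * (K u w * K u w) := by ring
            _ = K u v := by rw [hv u w h4, mul_one, hs]
        · rw [not_not] at h3
          rw [hs u w, h3]
          simp
      simp only [h2]
      rw [← Finset.sum_filter, Finset.sum_const, nsmul_eq_mul]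
      change n u * (K u v / n u) = K u v
      field_simp [(hnpos u).ne']
  have h : ∑ u, ∑ v, g u * g v * K u v = ∑ w, (∑ u, g u * K u w) ^ 2 / n w := by
    have h2 : ∀ w, (∑ u, g u * K u w) ^ 2 / n w = ∑ u, ∑ v, g u * g v * (K u w * K v w / n w) := by
      intro w
      rw [sq, Finset.sum_mul_sum, Finset.sum_div]
      refine Finset.sum_congr rfl fun u _ => ?_
      rw [Finset.sum_div]
      exact Finset.sum_congr rfl fun v _ => by ring
    simp only [h2]
    symm
    rw [Finset.sum_comm]
    refine Finset.sum_congr rfl fun u _ => ?_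
    rw [Finset.sum_comm]
    refine Finset.sum_congr rfl fun v _ => ?_
    rw [← Finset.mul_sum, key]
  rw [h]
  exact Finset.sum_nonneg fun w _ => div_nonneg (sq_nonneg _) (hnpos w).le

section pd
variable {ι κ : Type} [Fintype ι] [DecidableEq ι] [Fintype κ] [DecidableEq κ]

/-- the expansion hypothesis: up to `s` equations, `|J| ≤ 2 |bsum A J|` -/
def Expand (A : κ → Finset ι) (s : ℕ) : Prop :=
  ∀ J : Finset κ, J.card ≤ s → J.card ≤ 2 * (bsum A J).card

theorem card_symmDiff_le (J J' : Finset κ) : (symmDiff J J').card ≤ J.card + J'.card :=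
  (Finset.card_le_card (by
    intro i hi
    rw [Finset.mem_symmDiff] at hi
    rw [Finset.mem_union]
    tauto)).trans (Finset.card_union_le J J')

/-- what is needed from the system -/
structure Good (A : κ → Finset ι) (r d : ℕ) : Prop where
  inj : ∀ J : Finset κ, J.card ≤ 2 * r → J.Nonempty → (bsum A J).Nonempty
  gap : ∀ J : Finset κ, J.card ≤ 2 * r → (bsum A J).card ≤ 2 * d → J.card ≤ r

theorem Expand.good {A : κ → Finset ι} {s r d : ℕ} (hA : Expand A s) (hr : 2 * r ≤ s)
    (hd : 4 * d ≤ r) : Good A r d where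
  inj J hJ hne := by
    have h1 := hA J (hJ.trans hr)
    have h2 := Finset.card_pos.2 hne
    exact Finset.card_pos.1 (by omega)
  gap J hJ h := by
    have h1 := hA J (hJ.trans hr)
    omega

theorem expand_inj {A : κ → Finset ι} {r d : ℕ} (hA : Good A r d)
    {J J' : Finset κ} (hJ : J.card ≤ r) (hJ' : J'.card ≤ r) (h : bsum A J = bsum A J') :
    J = J' := by
  have h1 : bsum A (symmDiff J J') = ∅ := by
    rw [bsum_symmDiff, h]
    exact (symmDiff_eq_empty _ _).2 rfl
  by_contra hne
  have h2 := hA.inj (symmDiff J J') (by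
    have := card_symmDiff_le J J'
    omega) (Finset.nonempty_iff_ne_empty.2 fun h0 => hne ((symmDiff_eq_empty _ _).1 h0))
  rw [h1] at h2
  exact Finset.not_nonempty_empty h2

theorem coef_xpd (r : ℕ) (A : κ → Finset ι) (b : κ → Bool) (α : Finset ι) :
    coef α (xpd r A b) = ∑ J ∈ Finset.univ.filter (fun J : Finset κ => J.card ≤ r),
      chr J b * (if α = bsum A J then 1 else 0) := by
  have h : xpd r A b = fun x => ∑ J ∈ Finset.univ.filter (fun J : Finset κ => J.card ≤ r),
      chr J b * chr (bsum A J) x := rfl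
  rw [h, coef_sum _ _ (fun J => chr J b) (fun J => chr (bsum A J))]
  exact Finset.sum_congr rfl fun J _ => by rw [coef_chr]

theorem coef_xpd_of {A : κ → Finset ι} {r d : ℕ} (hA : Good A r d)
    (b : κ → Bool) {J : Finset κ} (hJ : J.card ≤ r) {α : Finset ι} (hα : bsum A J = α) :
    coef α (xpd r A b) = chr J b := by
  rw [coef_xpd, Finset.sum_eq_single J]
  · rw [if_pos hα.symm, mul_one]
  · intro J' hJ' hne
    rw [if_neg, mul_zero]
    intro h
    exact hne (expand_inj hA (Finset.mem_filter.1 hJ').2 hJ (h.symm.trans hα.symm))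
  · intro h
    exact (h (Finset.mem_filter.2 ⟨Finset.mem_univ J, hJ⟩)).elim

theorem exists_of_coef_xpd {A : κ → Finset ι} {r : ℕ} {b : κ → Bool} {α : Finset ι}
    (h : coef α (xpd r A b) ≠ 0) : ∃ J : Finset κ, J.card ≤ r ∧ bsum A J = α := by
  by_contra hcon
  push Not at hcon
  refine h ?_
  rw [coef_xpd]
  refine Finset.sum_eq_zero fun J hJ => ?_
  rw [if_neg, mul_zero]
  exact fun h => hcon J (Finset.mem_filter.1 hJ).2 h.symm

end pd

end h8

open h71 h8

section main
variable {ι κ : Type} [Fintype ι] [DecidableEq ι] [Fintype κ] [DecidableEq κ]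

theorem xpd_coef_le {A : κ → Finset ι} {r d : ℕ} (hA : Good A r d)
    (b : κ → Bool) (α : Finset ι) : |coef α (xpd r A b)| ≤ 1 := by
  by_cases h : coef α (xpd r A b) = 0
  · rw [h, abs_zero]
    exact zero_le_one
  · obtain ⟨J, hJ, hα⟩ := exists_of_coef_xpd h
    rw [coef_xpd_of hA b hJ hα, abs_chr]

theorem xpd_coef_empty {A : κ → Finset ι} {r d : ℕ} (hA : Good A r d)
    (b : κ → Bool) : coef ∅ (xpd r A b) = 1 := by
  rw [coef_xpd_of hA b (J := ∅) (by simp) (bsum_empty A), chr_empty]

theorem xpd_bd {A : κ → Finset ι} {r d : ℕ} (hA : Good A r d)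
    (b : κ → Bool) (x : ι → Bool) : |xpd r A b x| ≤ 2 ^ Fintype.card ι := by
  rw [inversion (xpd r A b) x]
  refine (Finset.abs_sum_le_sum_abs _ _).trans ?_
  calc ∑ α, |coef α (xpd r A b) * chr α x| ≤ ∑ _α : Finset ι, (1 : ℝ) := by
        refine Finset.sum_le_sum fun α _ => ?_
        rw [abs_mul, abs_chr, mul_one]
        exact xpd_coef_le hA b α
    _ = 2 ^ Fintype.card ι := by simp

/-- moving an equation -/
theorem xpd_coef_eq {A : κ → Finset ι} {r d : ℕ} (hA : Good A r d) (hr : 1 ≤ r)
    (b : κ → Bool) (j : κ) (hj : (A j).card ≤ 3) (α : Finset ι)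
    (hα : α.card + 3 ≤ 2 * d) :
    coef (symmDiff α (A j)) (xpd r A b) = sg (b j) * coef α (xpd r A b) := by
  have hsg : chr {j} b = sg (b j) := by simp [chr]
  have key : ∀ β γ : Finset ι, γ = symmDiff β (A j) → γ.card ≤ 2 * d →
      coef β (xpd r A b) ≠ 0 → coef γ (xpd r A b) = sg (b j) * coef β (xpd r A b) := by
    intro β γ hγ hγc hβ
    obtain ⟨J, hJ, hJβ⟩ := exists_of_coef_xpd hβ
    have h1 : bsum A (symmDiff J {j}) = γ := by rw [bsum_symmDiff, bsum_singleton, hJβ, hγ]
    have h2 : (symmDiff J {j}).card ≤ r + 1 := by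
      have := card_symmDiff_le J {j}
      rw [Finset.card_singleton] at this
      omega
    have h3 := hA.gap (symmDiff J {j}) (by omega) (by rw [h1]; exact hγc)
    rw [coef_xpd_of hA b h3 h1, coef_xpd_of hA b hJ hJβ, ← chr_mul, hsg, mul_comm]
  have hc : (symmDiff α (A j)).card ≤ 2 * d := by
    have := card_symmDiff_le α (A j)
    omega
  by_cases h : coef α (xpd r A b) = 0
  · rw [h, mul_zero]
    by_contra hne
    have h2 := key (symmDiff α (A j)) α (by rw [symmDiff_symmDiff_cancel_right]) (by omega) hne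
    rw [h] at h2
    have h3 : sg (b j) ≠ 0 := by rcases sg_cases (b j) with h | h <;> rw [h] <;> norm_num
    exact (mul_ne_zero h3 hne) h2.symm
  · exact key α _ rfl hc h

theorem sum_mul_eq (f g : (ι → Bool) → ℝ) :
    ∑ x, f x * g x = 2 ^ Fintype.card ι * ∑ α, coef α f * coef α g := by
  have h : ∀ x, f x * g x = ∑ α, coef α g * (f x * chr α x) := by
    intro x
    calc f x * g x = f x * ∑ α, coef α g * chr α x := by rw [← inversion g x]
      _ = _ := by
          rw [Finset.mul_sum]
          exact Finset.sum_congr rfl fun α _ => by ring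
  simp only [h]
  rw [Finset.sum_comm, Finset.mul_sum]
  refine Finset.sum_congr rfl fun α _ => ?_
  rw [← Finset.mul_sum]
  have : ∑ x, f x * chr α x = 2 ^ Fintype.card ι * coef α f := by
    unfold coef
    field_simp
  rw [this]
  ring

/-- the equations hold -/
theorem xpd_clause {A : κ → Finset ι} {r d : ℕ} (hA : Good A r d) (hr : 1 ≤ r)
    (b : κ → Bool) (j : κ) (hj : (A j).card ≤ 3) {k : ℕ} (hk : k + 3 ≤ 2 * d)
    {v : (ι → Bool) → ℝ} (hv : v ∈ Deg ι k) :
    ∑ x, xpd r A b x * (chr (A j) x * v x) = sg (b j) * ∑ x, xpd r A b x * v x := by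
  rw [sum_mul_eq (xpd r A b) (fun x => chr (A j) x * v x), sum_mul_eq (xpd r A b) v]
  have h1 : ∀ α, coef (symmDiff α (A j)) (fun x => chr (A j) x * v x) = coef α v := by
    intro α
    unfold coef
    congr 1
    refine Finset.sum_congr rfl fun x _ => ?_
    rw [← chr_mul]
    have := chr_mul_self (A j) x
    linear_combination (v x * chr α x) * this
  have h2 : ∑ α, coef α (xpd r A b) * coef α (fun x => chr (A j) x * v x)
      = ∑ α, coef (symmDiff α (A j)) (xpd r A b) * coef α v := by
    have h3 := Equiv.sum_comp (Function.Involutive.toPerm (fun α : Finset ι => symmDiff α (A j))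
      (fun α => symmDiff_symmDiff_cancel_right _ _))
      (fun α => coef α (xpd r A b) * coef α (fun x => chr (A j) x * v x))
    rw [← h3]
    refine Finset.sum_congr rfl fun α _ => ?_
    rw [Function.Involutive.coe_toPerm, h1]
  have h4 : ∑ α, coef (symmDiff α (A j)) (xpd r A b) * coef α v
      = sg (b j) * ∑ α, coef α (xpd r A b) * coef α v := by
    rw [Finset.mul_sum]
    refine Finset.sum_congr rfl fun α _ => ?_
    by_cases hα : k < α.card
    · rw [coef_eq_zero hv hα]
      ring
    · rw [xpd_coef_eq hA hr b j hj α (by omega)]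
      ring
  rw [h2, h4]
  ring

/-- functions of at most `k` variables which vanish on the solutions of equation `j` have
expectation zero -/
theorem xpd_violated {A : κ → Finset ι} {r d : ℕ} (hA : Good A r d) (hr : 1 ≤ r)
    (b : κ → Bool) (j : κ) (hj : (A j).card ≤ 3) {k : ℕ} (hk : k + 3 ≤ 2 * d)
    {v : (ι → Bool) → ℝ} (hv : v ∈ Deg ι k) (h0 : ∀ x, chr (A j) x = sg (b j) → v x = 0) :
    ∑ x, xpd r A b x * v x = 0 := by
  have h1 := xpd_clause hA hr b j hj hk hv
  have h2 : ∀ x, chr (A j) x * v x = -(sg (b j) * v x) := by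
    intro x
    by_cases h : chr (A j) x = sg (b j)
    · rw [h0 x h]
      simp
    · have h3 : chr (A j) x = -sg (b j) := by
        have h4 := chr_mul_self (A j) x
        have h5 := sg_mul_self (b j)
        have h6 : (chr (A j) x - sg (b j)) * (chr (A j) x + sg (b j)) = 0 := by
          linear_combination h4 - h5
        rcases mul_eq_zero.1 h6 with h7 | h7
        · exact absurd (sub_eq_zero.1 h7) h
        · linarith
      rw [h3]
      ring
  simp only [h2] at h1
  have h3 : ∑ x, xpd r A b x * -(sg (b j) * v x) = -(sg (b j) * ∑ x, xpd r A b x * v x) := by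
    rw [Finset.mul_sum, ← Finset.sum_neg_distrib]
    exact Finset.sum_congr rfl fun x _ => by ring
  rw [h3] at h1
  have h4 : sg (b j) ≠ 0 := by rcases sg_cases (b j) with h | h <;> rw [h] <;> norm_num
  have h5 : sg (b j) * ∑ x, xpd r A b x * v x = 0 := by linarith
  exact (mul_eq_zero.1 h5).resolve_left h4

/-- positivity on squares of degree `d` -/
theorem xpd_sq {A : κ → Finset ι} {r d : ℕ} (hA : Good A r d)
    (b : κ → Bool) {g : (ι → Bool) → ℝ} (hg : g ∈ Deg ι d) :
    0 ≤ ∑ x, xpd r A b x * g x ^ 2 := by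
  classical
  set K : Finset ι → Finset ι → ℝ := fun U V => coef (symmDiff U V) (xpd r A b) with hK
  -- expansion into the characters
  have h1 : ∑ x, xpd r A b x * g x ^ 2
      = 2 ^ Fintype.card ι * ∑ U, ∑ V, coef U g * coef V g * K U V := by
    have h2 : ∀ x, xpd r A b x * g x ^ 2
        = ∑ U, ∑ V, coef U g * coef V g * (xpd r A b x * chr (symmDiff U V) x) := by
      intro x
      have h3 : g x ^ 2 = ∑ U, ∑ V, coef U g * chr U x * (coef V g * chr V x) := by
        rw [← Finset.sum_mul_sum, ← inversion g x, sq]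
      rw [h3, Finset.mul_sum]
      refine Finset.sum_congr rfl fun U _ => ?_
      rw [Finset.mul_sum]
      refine Finset.sum_congr rfl fun V _ => ?_
      rw [← chr_mul]
      ring
    simp only [h2]
    rw [Finset.sum_comm, Finset.mul_sum]
    refine Finset.sum_congr rfl fun U _ => ?_
    rw [Finset.sum_comm, Finset.mul_sum]
    refine Finset.sum_congr rfl fun V _ => ?_
    rw [← Finset.mul_sum]
    have : ∑ x, xpd r A b x * chr (symmDiff U V) x = 2 ^ Fintype.card ι * K U V := by
      simp only [hK]
      unfold coef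
      field_simp
    rw [this]
    ring
  rw [h1]
  refine mul_nonneg (by positivity) ?_
  -- restrict to the sets of size at most d
  let T := {U : Finset ι // U.card ≤ d}
  have h2 : ∑ U, ∑ V, coef U g * coef V g * K U V
      = ∑ U : T, ∑ V : T, coef U.1 g * coef V.1 g * K U.1 V.1 := by
    have h3 : ∀ f : Finset ι → ℝ, (∀ U, d < U.card → f U = 0) → ∑ U, f U = ∑ U : T, f U.1 := by
      intro f hf
      have h4 : ∑ U ∈ Finset.univ.filter (fun U : Finset ι => U.card ≤ d), f U = ∑ U : T, f U.1 :=
        Finset.sum_subtype _ (fun U => by simp) f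
      rw [← h4, Finset.sum_filter]
      refine Finset.sum_congr rfl fun U _ => ?_
      split_ifs with h
      · rfl
      · exact hf U (not_le.1 h)
    rw [h3 _ (fun U hU => Finset.sum_eq_zero fun V _ => by rw [coef_eq_zero hg hU]; ring)]
    refine Finset.sum_congr rfl fun U _ => ?_
    rw [h3 _ (fun V hV => by rw [coef_eq_zero hg hV]; ring)]
  rw [h2]
  refine psd_of_rel (fun U V : T => K U.1 V.1) ?_ ?_ ?_ ?_ (fun U => coef U.1 g)
  · intro U
    simp only [hK, symmDiff_self]
    exact xpd_coef_empty hA b
  · intro U V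
    simp only [hK, symmDiff_comm]
  · intro U V h
    simp only [hK] at h ⊢
    obtain ⟨J, hJ, hα⟩ := exists_of_coef_xpd h
    rw [coef_xpd_of hA b hJ hα, chr_mul_self]
  · intro U V W h h'
    simp only [hK] at h h' ⊢
    obtain ⟨J, hJ, hα⟩ := exists_of_coef_xpd h
    obtain ⟨J', hJ', hα'⟩ := exists_of_coef_xpd h'
    have h3 : bsum A (symmDiff J J') = symmDiff U.1 W.1 := by
      rw [bsum_symmDiff, hα, hα', symmDiff_assoc, ← symmDiff_assoc V.1, symmDiff_self, bot_symmDiff]
    have h5 : (symmDiff U.1 W.1).card ≤ 2 * d := by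
      have := card_symmDiff_le U.1 W.1
      have := U.2
      have := W.2
      omega
    have h4 := hA.gap (symmDiff J J') (by
      have := card_symmDiff_le J J'
      omega) (by rw [h3]; exact h5)
    rw [coef_xpd_of hA b hJ hα, coef_xpd_of hA b hJ' hα', coef_xpd_of hA b h4 h3, chr_mul]

end main

end SDX
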